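import Pool.Agent.MP_7f38c2_co.H28.Final

/-! The line graph of an infinite locally finite `10 ^ 8`-edge-connected graph, with arbitrary
ends, has a hamilton circle in its Freudenthal compactification. -/

theorem Pool.Agent.Results.MP_7f38c2_co.AnyEnds.result {V : Type*} (G : SimpleGraph V)
    [G.LocallyFinite] [Infinite V] (hk : G.IsEdgeConnected (10 ^ 8)) :
    Pool.Agent.MP_7f38c2_co.H94.HasHamiltonCircle G.lineGraph :=
  Pool.Agent.MP_7f38c2_co.H28.main_any G hk
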