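import Pool.Agent.MP_7f38c2_co.H94.Main

/-! The line graph of an infinite locally finite 4-edge-connected graph with at most countably
many ends has a hamilton circle in its Freudenthal compactification. -/

theorem Pool.Agent.Results.MP_7f38c2_co.CountableEnds.result {V : Type*} (G : SimpleGraph V)
    [G.LocallyFinite] [Infinite V] (h4 : G.IsEdgeConnected 4)
    (hends : Countable (Pool.Agent.MP_7f38c2_co.H94.End G)) :
    Pool.Agent.MP_7f38c2_co.H94.HasHamiltonCircle G.lineGraph :=
  Pool.Agent.MP_7f38c2_co.H94.main_countable G h4 hends
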